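import Pool.Agent.N880.HP.TwA
import Pool.Agent.H385R2.PerChi

/-!
# Vertical shifts of L-functions

If `F` satisfies the conditions `GoodU`, so does `s ↦ F (s + i u)` for every `u ≥ 0`, with a worse
constant.
-/

set_option autoImplicit false

open Complex Filter Topology Set MeasureTheory

namespace Pool.Agent.T4h70.LI

open H385

/-- the function shifted by `i u` -/
noncomputable def sh (u : ℝ) (F : ℂ → ℂ) : ℂ → ℂ := fun s => F (s + u * I)

/-- the phase `n ^ (-i u)` -/
noncomputable def ph (u : ℝ) (n : ℕ) : ℂ := (n : ℂ) ^ (-((u : ℂ) * I))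

lemma ph_norm (u : ℝ) {n : ℕ} (hn : 1 ≤ n) : ‖ph u n‖ = 1 := by
  unfold ph
  rw [Complex.norm_natCast_cpow_of_pos hn]
  simp

lemma ph_zero (n : ℕ) : ph 0 n = 1 := by
  unfold ph
  simp

lemma sh_zero (F : ℂ → ℂ) : sh 0 F = F := by
  funext s
  unfold sh
  simp

lemma sh_im (u : ℝ) (s : ℂ) : (s + u * I).im = s.im + u := by simp

lemma sh_re (u : ℝ) (s : ℂ) : (s + u * I).re = s.re := by simp

lemma sh_refl (u : ℝ) (s : ℂ) : 1 - (starRingEnd ℂ) s + u * I = 1 - (starRingEnd ℂ) (s + u * I) := by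
  rw [map_add, map_mul, Complex.conj_ofReal, Complex.conj_I]
  ring

lemma sh_order (u : ℝ) (F : ℂ → ℂ) (s : ℂ) :
    analyticOrderAt (sh u F) s = analyticOrderAt F (s + u * I) := by
  have hg : AnalyticAt ℂ (fun z : ℂ => z + u * I) s := by fun_prop
  have hg' : deriv (fun z : ℂ => z + u * I) s ≠ 0 := by simp
  exact analyticOrderAt_comp_of_deriv_ne_zero hg hg'

lemma sh_deriv (u : ℝ) (F : ℂ → ℂ) (s : ℂ) : deriv (sh u F) s = deriv F (s + u * I) := by
  unfold sh
  exact deriv_comp_add_const F (u * I) s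

lemma vm_ph {a : ℕ → ℂ} (ha : ∀ n, ‖a n‖ ≤ ArithmeticFunction.vonMangoldt n) (u : ℝ) (n : ℕ) :
    ‖a n * ph u n‖ ≤ ArithmeticFunction.vonMangoldt n := by
  rcases Nat.eq_zero_or_pos n with hn | hn
  · subst hn
    have h2 := ha 0
    rw [ArithmeticFunction.map_zero] at h2
    have h3 : a 0 = 0 := norm_le_zero_iff.1 h2
    rw [h3, zero_mul, norm_zero, ArithmeticFunction.map_zero]
  · rw [norm_mul, ph_norm u hn, mul_one]
    exact ha n

theorem goodU_shift {A Q u : ℝ} {F : ℂ → ℂ} {a : ℕ → ℂ} (hA : 1 ≤ A) (hQ : 1 ≤ Q) (hu : 0 ≤ u)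
    (h : GoodU A Q F a) :
    GoodU (A * (1 + u) ^ A + Real.log (1 + u)) Q (sh u F) (fun n => a n * ph u n) := by
  have hu1 : (1 : ℝ) ≤ 1 + u := by linarith
  have h1A : (1 : ℝ) ≤ (1 + u) ^ A := Real.one_le_rpow hu1 (by linarith)
  have hl : 0 ≤ Real.log (1 + u) := Real.log_nonneg hu1
  have hBB : A ≤ A * (1 + u) ^ A := le_mul_of_one_le_right (by linarith) h1A
  have him : ∀ s : ℂ, 1 ≤ s.im → s.im + u ≤ (1 + u) * s.im := by
    intro s hs
    nlinarith
  refine ⟨?_, ?_, ?_, ?_, ?_, ?_, ?_, ?_, ?_⟩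
  · intro s hs
    have h1 : AnalyticAt ℂ F (s + u * I) := h.an _ (by rw [sh_im]; linarith)
    have hg : AnalyticAt ℂ (fun z : ℂ => z + u * I) s := by fun_prop
    exact AnalyticAt.comp (g := F) (f := fun z : ℂ => z + u * I) h1 hg
  · intro s h1 h2 h3
    have b := h.growth (s + u * I) (by rw [sh_re]; exact h1) (by rw [sh_re]; exact h2)
      (by rw [sh_im]; linarith)
    rw [sh_im] at b
    have hx : 1 ≤ Q * s.im := one_le_mul_of_one_le_of_one_le hQ h3
    have hx0 : 0 ≤ Q * s.im := by linarith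
    have e0 : Q * (s.im + u) ≤ (1 + u) * (Q * s.im) := by
      have := mul_le_mul_of_nonneg_left (him s h3) (by linarith : (0 : ℝ) ≤ Q)
      linarith [show Q * ((1 + u) * s.im) = (1 + u) * (Q * s.im) by ring]
    have e0' : 0 ≤ Q * (s.im + u) := by positivity
    have e1 : (Q * (s.im + u)) ^ A ≤ (1 + u) ^ A * (Q * s.im) ^ A := by
      rw [← Real.mul_rpow (by linarith) hx0]
      exact Real.rpow_le_rpow e0' e0 (by linarith)
    have e2 : (Q * s.im) ^ A ≤ (Q * s.im) ^ (A * (1 + u) ^ A + Real.log (1 + u)) :=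
      Real.rpow_le_rpow_of_exponent_le hx (by linarith)
    have e3 : 0 ≤ (Q * s.im) ^ (A * (1 + u) ^ A + Real.log (1 + u)) := by positivity
    calc ‖sh u F s‖ ≤ A * (Q * (s.im + u)) ^ A := b
      _ ≤ A * ((1 + u) ^ A * (Q * s.im) ^ A) := mul_le_mul_of_nonneg_left e1 (by linarith)
      _ = (A * (1 + u) ^ A) * (Q * s.im) ^ A := by ring
      _ ≤ (A * (1 + u) ^ A + Real.log (1 + u)) *
          (Q * s.im) ^ (A * (1 + u) ^ A + Real.log (1 + u)) := by
          refine mul_le_mul (by linarith) e2 (by positivity) (by positivity)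
  · intro t ht
    have b := h.lower (t + u) (by linarith)
    have e : (⟨2, t⟩ : ℂ) + u * I = ⟨2, t + u⟩ := by
      apply Complex.ext <;> simp
    unfold sh
    rw [e]
    refine le_trans ?_ b
    exact inv_anti₀ (by linarith) (by linarith)
  · intro s h1 h2
    exact h.nzr _ (by rw [sh_re]; exact h1) (by rw [sh_im]; linarith)
  · intro s h1 h2
    exact h.nzl _ (by rw [sh_re]; exact h1) (by rw [sh_im]; linarith)
  · intro s h1 h2 h3
    rw [sh_order, sh_order, sh_refl]
    exact h.symm _ (by rw [sh_re]; exact h1) (by rw [sh_re]; exact h2) (by rw [sh_im]; linarith)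
  · exact vm_ph h.ha u
  · intro s h1 h2
    have b := h.ld (s + u * I) (by rw [sh_re]; exact h1) (by rw [sh_im]; linarith)
    rw [sh_deriv]
    show deriv F (s + u * I) / F (s + u * I) = _
    rw [b]
    congr 1
    refine tsum_congr fun n => ?_
    rcases Nat.eq_zero_or_pos n with hn | hn
    · subst hn
      have h2 := h.ha 0
      rw [ArithmeticFunction.map_zero] at h2
      have h3 : a 0 = 0 := norm_le_zero_iff.1 h2
      rw [h3]
      simp
    · have hn0 : (n : ℂ) ≠ 0 := by exact_mod_cast hn.ne'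
      unfold ph
      rw [neg_add, Complex.cpow_add _ _ hn0]
      ring
  · intro s h1 h2 h3 h4
    have b := h.left (s + u * I) (by rw [sh_re]; exact h1) (by rw [sh_re]; exact h2)
      (by rw [sh_im]; linarith) h4
    rw [sh_deriv, sh_deriv]
    have e5 : sh u F (1 - (starRingEnd ℂ) s) = F (1 - (starRingEnd ℂ) (s + u * I)) := by
      unfold sh
      rw [sh_refl]
    have e6 : sh u F s = F (s + u * I) := rfl
    rw [e5, e6, sh_refl]
    rw [sh_im] at b
    obtain ⟨D, hD⟩ : ∃ D : ℝ, D = Real.log (Q * (s.im + u)) - Real.log (Q * s.im) := ⟨_, rfl⟩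
    have hQs : 0 < Q * s.im := by positivity
    have hQs' : 0 < Q * (s.im + u) := by positivity
    have hD0 : 0 ≤ D := by
      rw [hD, sub_nonneg]
      exact Real.log_le_log hQs (mul_le_mul_of_nonneg_left (by linarith) (by linarith))
    have hD1 : D ≤ Real.log (1 + u) := by
      rw [hD, ← Real.log_div hQs'.ne' hQs.ne']
      refine Real.log_le_log (by positivity) ?_
      rw [div_le_iff₀ hQs]
      have := mul_le_mul_of_nonneg_left (him s h3) (by linarith : (0 : ℝ) ≤ Q)
      linarith [show Q * ((1 + u) * s.im) = (1 + u) * (Q * s.im) by ring]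
    have e7 : (Real.log (Q * s.im) : ℂ) = (Real.log (Q * (s.im + u)) : ℂ) - (D : ℂ) := by
      rw [hD]
      push_cast
      ring
    rw [e7]
    calc _ = ‖(deriv F (s + u * I) / F (s + u * I) + Real.log (Q * (s.im + u)) +
          (starRingEnd ℂ) (deriv F (1 - (starRingEnd ℂ) (s + u * I)) /
            F (1 - (starRingEnd ℂ) (s + u * I)))) - (D : ℂ)‖ := by
          congr 1
          ring
      _ ≤ A + D := by
          refine (norm_sub_le _ _).trans (add_le_add b ?_)
          rw [Complex.norm_real, Real.norm_of_nonneg hD0]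
      _ ≤ A * (1 + u) ^ A + Real.log (1 + u) := by linarith

/-- a larger constant -/
theorem goodU_mono {A B Q : ℝ} {F : ℂ → ℂ} {a : ℕ → ℂ} (hA : 1 ≤ A) (hAB : A ≤ B) (hQ : 1 ≤ Q)
    (h : GoodU A Q F a) : GoodU B Q F a := by
  refine ⟨h.an, ?_, ?_, h.nzr, h.nzl, h.symm, h.ha, h.ld, ?_⟩
  · intro s h1 h2 h3
    have hx : 1 ≤ Q * s.im := one_le_mul_of_one_le_of_one_le hQ h3
    have e2 : (Q * s.im) ^ A ≤ (Q * s.im) ^ B := Real.rpow_le_rpow_of_exponent_le hx hAB
    have hx0 : 0 ≤ Q * s.im := by linarith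
    calc ‖F s‖ ≤ A * (Q * s.im) ^ A := h.growth s h1 h2 h3
      _ ≤ B * (Q * s.im) ^ B := mul_le_mul hAB e2 (by positivity) (by linarith)
  · intro t ht
    exact (inv_anti₀ (by linarith) hAB).trans (h.lower t ht)
  · intro s h1 h2 h3 h4
    exact (h.left s h1 h2 h3 h4).trans hAB

end Pool.Agent.T4h70.LI
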