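import Pool.Agent.N880.HP.TwB
import Pool.Agent.T4h70.LI.Shift

/-!
# Weak Selberg orthonormality for `(1 + ψ(n) n^(-i w)) / √2`
-/

set_option autoImplicit false

open Complex Filter Topology Set

namespace Pool.Agent.T4h70.LI

open ArithmeticFunction.vonMangoldt Pool.Agent.N880.HP

/-- `- L'/L(s, ψ)` stays bounded near `1 + i w` -/
theorem lim_twist {m : ℕ} [NeZero m] (ψ : DirichletCharacter ℂ m) (w : ℝ) (h : ψ ≠ 1 ∨ w ≠ 0) :
    Tendsto (fun σ : ℝ => σ * (LSeries ((fun n : ℕ => ψ (n : ZMod m)) *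
      (fun n : ℕ => (ArithmeticFunction.vonMangoldt n : ℂ))) (1 + σ + w * I)).re) (𝓝[>] 0)
      (𝓝 0) := by
  obtain ⟨s0, hs0⟩ : ∃ s0 : ℂ, s0 = 1 + w * I := ⟨_, rfl⟩
  have hs0re : s0.re = 1 := by rw [hs0]; simp
  have hne : ψ ≠ 1 ∨ s0 ≠ 1 := by
    rcases h with h | h
    · exact Or.inl h
    · right
      intro h1
      rw [hs0] at h1
      have h2 := congrArg Complex.im h1
      simp at h2
      exact h h2
  have hL0 : DirichletCharacter.LFunction ψ s0 ≠ 0 :=
    DirichletCharacter.LFunction_ne_zero_of_one_le_re ψ hne hs0re.ge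
  have han : AnalyticAt ℂ (DirichletCharacter.LFunction ψ) s0 := by
    rcases hne with h1 | h1
    · exact (DirichletCharacter.differentiable_LFunction h1).analyticAt s0
    · have hd : DifferentiableOn ℂ (DirichletCharacter.LFunction ψ) {s : ℂ | s ≠ 1} := fun s hs =>
        (DirichletCharacter.differentiableAt_LFunction ψ s (Or.inl hs)).differentiableWithinAt
      exact hd.analyticAt (isOpen_ne.mem_nhds h1)
  have hG : ContinuousAt (fun s => -deriv (DirichletCharacter.LFunction ψ) s /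
      DirichletCharacter.LFunction ψ s) s0 :=
    (han.deriv.continuousAt.neg).div han.continuousAt hL0
  have hpath : Tendsto (fun σ : ℝ => (1 + σ + w * I : ℂ)) (𝓝[>] 0) (𝓝 s0) := by
    have hc : Continuous (fun σ : ℝ => (1 + σ + w * I : ℂ)) := by fun_prop
    have h0 := hc.tendsto 0
    rw [Complex.ofReal_zero, add_zero, ← hs0] at h0
    exact h0.mono_left nhdsWithin_le_nhds
  have h1 := (Complex.continuous_re.tendsto _).comp (hG.tendsto.comp hpath)
  have h3 : Tendsto (fun σ : ℝ => σ) (𝓝[>] 0) (𝓝 (0 : ℝ)) := nhdsWithin_le_nhds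
  have h4 := h3.mul h1
  rw [zero_mul] at h4
  refine h4.congr' ?_
  filter_upwards [self_mem_nhdsWithin] with σ hσ
  have hσ0 : (0 : ℝ) < σ := hσ
  have hre : 1 < (1 + σ + w * I : ℂ).re := by simpa using hσ0
  rw [DirichletCharacter.LSeries_twist_vonMangoldt_eq ψ hre,
    ← DirichletCharacter.deriv_LFunction_eq_deriv_LSeries ψ hre,
    ← DirichletCharacter.LFunction_eq_LSeries ψ hre]
  rfl

theorem selE_shift {m : ℕ} [NeZero m] (ψ : DirichletCharacter ℂ m) (w : ℝ) (h : ψ ≠ 1 ∨ w ≠ 0)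
    (c : ℕ → ℂ) (hc : ∀ n : ℕ, 1 ≤ n → ‖c n‖ ^ 2 = ‖1 + ψ (n : ZMod m) * ph w n‖ ^ 2 / 2) :
    W388.SelE c := by
  classical
  obtain ⟨U, hU⟩ : ∃ U : ZMod m → ℝ, U = fun a => if IsUnit a then 1 else 0 := ⟨_, rfl⟩
  have hU2 : ∀ a : ZMod m, ‖ψ a‖ ^ 2 = U a := by
    intro a
    rw [hU]
    by_cases ha : IsUnit a
    · have h1 : ‖ψ a‖ = 1 := by
        obtain ⟨b, rfl⟩ := ha
        exact DirichletCharacter.unit_norm_eq_one ψ b
      simp only [ha, if_true, h1, one_pow]
    · simp only [ha, if_false]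
      rw [MulChar.map_nonunit ψ ha]
      simp
  -- the sum over the residue classes
  have hdec : ∀ n : ℕ, ArithmeticFunction.vonMangoldt n * U (n : ZMod m) =
      ∑ a : ZMod m, U a * residueClass a n := by
    intro n
    rw [Finset.sum_eq_single (n : ZMod m)]
    · rw [residueClass, Set.indicator_of_mem (by simp), mul_comm]
    · intro a _ ha
      rw [residueClass, Set.indicator_of_notMem (by simpa using fun h => ha h.symm), mul_zero]
    · intro h
      exact absurd (Finset.mem_univ _) h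
  have hone : ∀ n : ℕ, residueClass (0 : ZMod 1) n = ArithmeticFunction.vonMangoldt n := by
    intro n
    unfold residueClass
    exact Set.indicator_of_mem (show n ∈ {n : ℕ | (n : ZMod 1) = 0} from Subsingleton.elim _ _) _
  obtain ⟨f, hf⟩ : ∃ f : ℕ → ℂ, f = (fun n : ℕ => ψ (n : ZMod m)) *
      (fun n : ℕ => (ArithmeticFunction.vonMangoldt n : ℂ)) := ⟨_, rfl⟩
  -- the twisted terms
  have htw : ∀ σ : ℝ, ∀ n : ℕ, (LSeries.term f (1 + σ + w * I) n).re =
      ArithmeticFunction.vonMangoldt n * (ψ (n : ZMod m) * ph w n).re * (n : ℝ) ^ (-(1 + σ)) := by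
    intro σ n
    rcases Nat.eq_zero_or_pos n with rfl | hn
    · simp
    · have hn0 : (n : ℂ) ≠ 0 := by exact_mod_cast hn.ne'
      rw [LSeries.term_of_ne_zero hn.ne', hf]
      simp only [Pi.mul_apply]
      have e1 : (n : ℂ) ^ (1 + σ + w * I : ℂ) = ((n : ℝ) ^ (1 + σ) : ℝ) * (n : ℂ) ^ (w * I : ℂ) := by
        rw [Complex.cpow_add _ _ hn0, Complex.ofReal_cpow (Nat.cast_nonneg n)]
        push_cast
        rfl
      have e2 : ((n : ℂ) ^ (w * I : ℂ))⁻¹ = ph w n := by
        unfold ph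
        rw [Complex.cpow_neg]
      have e3 : ψ (n : ZMod m) * (ArithmeticFunction.vonMangoldt n : ℂ) /
          (n : ℂ) ^ (1 + σ + w * I : ℂ) = ((ArithmeticFunction.vonMangoldt n *
            (n : ℝ) ^ (-(1 + σ)) : ℝ) : ℂ) * (ψ (n : ZMod m) * ph w n) := by
        rw [e1, ← e2, Real.rpow_neg (Nat.cast_nonneg n)]
        push_cast
        rw [div_eq_mul_inv, mul_inv]
        ring
      rw [e3, Complex.re_ofReal_mul]
      ring
  have hfs : ∀ σ : ℝ, 0 < σ → LSeriesSummable f (1 + σ + w * I) := by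
    intro σ hσ
    rw [hf]
    exact DirichletCharacter.LSeriesSummable_twist_vonMangoldt ψ (by simpa using hσ)
  have hterm : ∀ (σ : ℝ), 0 < σ → ∀ n : ℕ, ArithmeticFunction.vonMangoldt n * ‖c n‖ ^ 2 / n *
      (n : ℝ) ^ (-σ) = 1 / 2 * (residueClass (0 : ZMod 1) n * (n : ℝ) ^ (-(1 + σ))) +
        ∑ a : ZMod m, U a / 2 * (residueClass a n * (n : ℝ) ^ (-(1 + σ))) +
        (LSeries.term f (1 + σ + w * I) n).re := by
    intro σ hσ n
    rw [htw]
    rcases Nat.eq_zero_or_pos n with rfl | hn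
    · simp
    · have hn0 : (0 : ℝ) < n := by exact_mod_cast hn
      have e1 : (n : ℝ) ^ (-(1 + σ)) = (n : ℝ)⁻¹ * (n : ℝ) ^ (-σ) := by
        rw [neg_add, Real.rpow_add hn0, Real.rpow_neg_one]
      have e2 : ∑ a : ZMod m, U a / 2 * (residueClass a n * (n : ℝ) ^ (-(1 + σ))) =
          (∑ a : ZMod m, U a * residueClass a n) / 2 * (n : ℝ) ^ (-(1 + σ)) := by
        rw [Finset.sum_div, Finset.sum_mul]
        exact Finset.sum_congr rfl fun a _ => by ring
      have e3 : ‖1 + ψ (n : ZMod m) * ph w n‖ ^ 2 =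
          1 + U (n : ZMod m) + 2 * (ψ (n : ZMod m) * ph w n).re := by
        rw [← hU2, ← Complex.normSq_eq_norm_sq, ← Complex.normSq_eq_norm_sq, Complex.normSq_add]
        have e4 : Complex.normSq (ψ (n : ZMod m) * ph w n) = Complex.normSq (ψ (n : ZMod m)) := by
          rw [Complex.normSq_mul, Complex.normSq_eq_norm_sq (ph w n), ph_norm w hn]
          simp
        rw [e4]
        simp
      rw [e2, ← hdec, hone, e1, hc n hn, e3]
      ring
  unfold W388.SelE
  refine W688.TW.t_kara (fun n => ArithmeticFunction.vonMangoldt n * ‖c n‖ ^ 2 / n)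
    (fun n => ?_) (by simp) (fun σ hσ => ?_) ?_
  · exact div_nonneg (mul_nonneg ArithmeticFunction.vonMangoldt_nonneg (sq_nonneg _))
      (Nat.cast_nonneg n)
  · refine Summable.congr ((((rc_summable (0 : ZMod 1) hσ).mul_left (1 / 2)).add
      (summable_sum fun a (_ : a ∈ Finset.univ) => (rc_summable a hσ).mul_left (U a / 2))).add
      (Complex.hasSum_re (hfs σ hσ).hasSum).summable) fun n => ?_
    exact (hterm σ hσ n).symm
  · obtain ⟨S, hS⟩ : ∃ S : ZMod m → ℝ → ℝ, S = fun a σ =>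
      σ * ∑' n : ℕ, residueClass a n * (n : ℝ) ^ (-(1 + σ)) := ⟨_, rfl⟩
    obtain ⟨S1, hS1⟩ : ∃ S1 : ℝ → ℝ, S1 = fun σ =>
      σ * ∑' n : ℕ, residueClass (0 : ZMod 1) n * (n : ℝ) ^ (-(1 + σ)) := ⟨_, rfl⟩
    obtain ⟨S2, hS2⟩ : ∃ S2 : ℝ → ℝ, S2 = fun σ : ℝ =>
      σ * (LSeries f (1 + (σ : ℂ) + w * I)).re := ⟨_, rfl⟩
    have hS1l : Tendsto S1 (𝓝[>] 0) (𝓝 1) := by
      have h := rc_lim (q := 1) (a := 0) (by exact isUnit_of_subsingleton _)
      rw [Nat.totient_one, Nat.cast_one, inv_one] at h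
      rw [hS1]
      exact h
    have hS2l : Tendsto S2 (𝓝[>] 0) (𝓝 0) := by
      rw [hS2, hf]
      exact lim_twist ψ w h
    have hval : ∀ σ : ℝ, 0 < σ → σ * ∑' n : ℕ, ArithmeticFunction.vonMangoldt n * ‖c n‖ ^ 2 / n *
        (n : ℝ) ^ (-σ) = 1 / 2 * S1 σ + (∑ a : ZMod m, U a / 2 * S a σ) + S2 σ := by
      intro σ hσ
      have s1 := (rc_summable (0 : ZMod 1) hσ).mul_left (1 / 2 : ℝ)
      have s2 : Summable fun n : ℕ => ∑ a : ZMod m,
          U a / 2 * (residueClass a n * (n : ℝ) ^ (-(1 + σ))) :=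
        summable_sum fun a (_ : a ∈ Finset.univ) => (rc_summable a hσ).mul_left (U a / 2)
      have s3 := (Complex.hasSum_re (hfs σ hσ).hasSum).summable
      rw [tsum_congr (hterm σ hσ), (s1.add s2).tsum_add s3, s1.tsum_add s2, tsum_mul_left,
        Summable.tsum_finsetSum fun a _ => (rc_summable a hσ).mul_left (U a / 2),
        (Complex.hasSum_re (hfs σ hσ).hasSum).tsum_eq]
      simp_rw [tsum_mul_left]
      rw [hS, hS1, hS2]
      simp only
      unfold LSeries
      rw [mul_add, mul_add, Finset.mul_sum]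
      congr 1
      congr 1
      · ring
      · exact Finset.sum_congr rfl fun a _ => by ring
    have hlim : Tendsto (fun σ => 1 / 2 * S1 σ + (∑ a : ZMod m, U a / 2 * S a σ) + S2 σ) (𝓝[>] 0)
        (𝓝 (1 / 2 * 1 + (∑ a : ZMod m, U a / 2 * (m.totient : ℝ)⁻¹) + 0)) := by
      refine ((hS1l.const_mul _).add (tendsto_finsetSum _ fun a _ => ?_)).add hS2l
      by_cases ha : IsUnit a
      · have h := rc_lim ha
        rw [hS]
        exact h.const_mul _
      · have h0 : U a / 2 = 0 := by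
          rw [hU]
          simp only [ha, if_false]
          norm_num
        rw [h0]
        simp
    have hsum : 1 / 2 * 1 + (∑ a : ZMod m, U a / 2 * (m.totient : ℝ)⁻¹) + 0 = 1 := by
      have hφ : (0 : ℝ) < m.totient := by
        exact_mod_cast Nat.totient_pos.2 (NeZero.pos m)
      have e1 : ∀ a : ZMod m, U a = ((1 : MulChar (ZMod m) ℂ) a).re := by
        intro a
        rw [hU]
        by_cases ha : IsUnit a
        · simp only [ha, if_true]
          rw [MulChar.one_apply ha]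
          simp
        · simp only [ha, if_false]
          rw [MulChar.map_nonunit _ ha]
          simp
      have e2 : ∑ a : ZMod m, U a = m.totient := by
        rw [Finset.sum_congr rfl fun a _ => e1 a, ← Complex.re_sum,
          MulChar.sum_one_eq_card_units, ZMod.card_units_eq_totient]
        simp
      rw [← Finset.sum_mul, ← Finset.sum_div, e2]
      field_simp
      norm_num
    rw [hsum] at hlim
    refine hlim.congr' ?_
    filter_upwards [self_mem_nhdsWithin] with σ hσ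
    exact (hval σ hσ).symm

end Pool.Agent.T4h70.LI
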