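import Pool.Agent.R321.RG4
import Pool.Agent.N880.HP.TwA
import Pool.Agent.N880.HP.TwC
import Pool.Agent.N880.HP.PairFin
import Pool.Agent.N880.HP.C2
import Pool.Agent.N880.HE.Fin
import Pool.Agent.T4h70.LI.Sel

/-! # Zeros `γ' = γ + v`: the product `L(s + i u, χ) L(s + i v, χ ψ)` on average over `χ` -/

set_option autoImplicit false
set_option maxHeartbeats 4000000

open Complex Filter Topology MeasureTheory Set

namespace Pool.Agent.T4h70.LI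

open H385 (primFamM primFamM_eq primSetM mem_primSetM Rw IX bt WM pm cM cM_pos prim_mass_M GoodU
  GoodD)
open H370 (zset mult NN Nd Ns GoodL)
open W388 (SelE SWu rad rad_squarefree coprime_rad primFamM_rad)
open Pool.Agent.R321.RC (On Cm counts goodD_mul)
open Pool.Agent.R321.RD (Al once)
open Pool.Agent.R321.RG (fam_mono fam_congr fam_add)
open Pool.Agent.N7.MainC (inner_le)
open Pool.Agent.N880.HP (LL LL_eq goodD_rescale good_bothψ swu_scale lin1 coreAbs c2 hh hh_pos hh_le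
  c2_main)

/-- the product `L(s + i u, χ) L(s + i v, χ ψ)` -/
noncomputable def Fs {m : ℕ} (ψ : DirichletCharacter ℂ m) (u v : ℝ) (q : ℕ)
    (χ : DirichletCharacter ℂ q) : ℂ → ℂ :=
  fun s => sh u (LL q χ) s * sh v (LL (q * m) (pm χ ψ)) s

/-- its coefficients -/
noncomputable def cs {m : ℕ} (ψ : DirichletCharacter ℂ m) (u v : ℝ) (n : ℕ) : ℂ :=
  ph u n + ψ (n : ZMod m) * ph v n

lemma ph_le (u : ℝ) (n : ℕ) : ‖ph u n‖ ≤ 1 := by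
  rcases Nat.eq_zero_or_pos n with rfl | hn
  · unfold ph
    rcases eq_or_ne u 0 with rfl | hu
    · simp
    · rw [Nat.cast_zero, Complex.zero_cpow]
      · simp
      · simpa using hu
  · exact (ph_norm u hn).le

lemma ph_add (u v : ℝ) {n : ℕ} (hn : 1 ≤ n) : ph (u + v) n = ph u n * ph v n := by
  have hn0 : (n : ℂ) ≠ 0 := by exact_mod_cast (by omega : n ≠ 0)
  unfold ph
  rw [← Complex.cpow_add _ _ hn0]
  congr 1
  push_cast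
  ring

lemma cs_le {m : ℕ} (ψ : DirichletCharacter ℂ m) (u v : ℝ) (n : ℕ) : ‖cs ψ u v n‖ ≤ 2 := by
  unfold cs
  have h1 := DirichletCharacter.norm_le_one ψ (n : ZMod m)
  have h2 := ph_le u n
  have h3 := ph_le v n
  calc ‖ph u n + ψ (n : ZMod m) * ph v n‖ ≤ ‖ph u n‖ + ‖ψ (n : ZMod m)‖ * ‖ph v n‖ := by
        rw [← norm_mul]; exact norm_add_le _ _
    _ ≤ 1 + 1 * 1 := add_le_add h2 (mul_le_mul h1 h3 (norm_nonneg _) zero_le_one)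
    _ = 2 := by norm_num

lemma cs_norm {m : ℕ} (ψ : DirichletCharacter ℂ m) (u v : ℝ) {n : ℕ} (hn : 1 ≤ n) :
    ‖cs ψ u v n‖ = ‖1 + ψ (n : ZMod m) * ph (v - u) n‖ := by
  have e : cs ψ u v n = ph u n * (1 + ψ (n : ZMod m) * ph (v - u) n) := by
    have h := ph_add u (v - u) hn
    rw [add_sub_cancel] at h
    unfold cs
    rw [h]
    ring
  rw [e, norm_mul, ph_norm u hn, one_mul]

/-- both factors satisfy the conditions `GoodU` -/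
theorem good_bothS {m : ℕ} (hm : m ≠ 0) (ψ : DirichletCharacter ℂ m) (hψ : ψ.IsPrimitive)
    {u v : ℝ} (hu : 0 ≤ u) (hv : 0 ≤ v) :
    ∃ A : ℝ, 1 ≤ A ∧ ∀ (q : ℕ) (χ : DirichletCharacter ℂ q), 1 ≤ q →
    Nat.Coprime q m → χ.IsPrimitive →
    GoodU A q (sh u (LL q χ))
      (fun n => χ (n : ZMod q) * (ArithmeticFunction.vonMangoldt n : ℂ) * ph u n) ∧
    GoodU A ((m : ℝ) * (q : ℝ)) (sh v (LL (q * m) (pm χ ψ))) (fun n => χ (n : ZMod q) *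
      ψ (n : ZMod m) * (ArithmeticFunction.vonMangoldt n : ℂ) * ph v n) := by
  obtain ⟨A, hA, hg⟩ := good_bothψ hm ψ hψ
  have hm1 : (1 : ℝ) ≤ m := by exact_mod_cast Nat.one_le_iff_ne_zero.2 hm
  have k : ∀ x : ℝ, 0 ≤ x → 1 ≤ A * (1 + x) ^ A + Real.log (1 + x) := by
    intro x hx
    have h1 : 1 ≤ (1 + x) ^ A := Real.one_le_rpow (by linarith) (by linarith)
    have h2 : 0 ≤ Real.log (1 + x) := Real.log_nonneg (by linarith)
    have h3 : 1 ≤ A * (1 + x) ^ A := one_le_mul_of_one_le_of_one_le hA h1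
    linarith
  refine ⟨max (A * (1 + u) ^ A + Real.log (1 + u)) (A * (1 + v) ^ A + Real.log (1 + v)),
    (k u hu).trans (le_max_left _ _), fun q χ hq hc hχ => ?_⟩
  obtain ⟨g1, g2⟩ := hg q χ hq hc hχ
  have hq1 : (1 : ℝ) ≤ q := by exact_mod_cast hq
  have hmq : (1 : ℝ) ≤ (m : ℝ) * q := one_le_mul_of_one_le_of_one_le hm1 hq1
  exact ⟨goodU_mono (k u hu) (le_max_left _ _) hq1 (goodU_shift hA hq1 hu g1),
    goodU_mono (k v hv) (le_max_right _ _) hmq (goodU_shift hA hmq hv g2)⟩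

theorem Fs_good {m : ℕ} (hm : m ≠ 0) (ψ : DirichletCharacter ℂ m) (hψ : ψ.IsPrimitive)
    {u v : ℝ} (hu : 0 ≤ u) (hv : 0 ≤ v) :
    ∃ A : ℝ, 1 ≤ A ∧ ∀ (q : ℕ) (χ : DirichletCharacter ℂ q), 1 ≤ q →
    Nat.Coprime q m → χ.IsPrimitive → GoodD 2 A q (Fs ψ u v q χ)
      (fun n => χ (n : ZMod q) * cs ψ u v n * (ArithmeticFunction.vonMangoldt n : ℂ)) := by
  obtain ⟨A, hA, hg⟩ := good_bothS hm ψ hψ hu hv
  obtain ⟨B, hB⟩ : ∃ B, B = 2 * A ^ 2 := ⟨_, rfl⟩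
  obtain ⟨R, hR⟩ : ∃ R, R = Real.sqrt m := ⟨_, rfl⟩
  have hm1 : (1 : ℝ) ≤ m := by exact_mod_cast Nat.one_le_iff_ne_zero.2 hm
  have hR1 : 1 ≤ R := by rw [hR]; exact Real.one_le_sqrt.2 hm1
  have hB1 : 1 ≤ B := by
    have : 1 ≤ A ^ 2 := one_le_pow₀ hA
    rw [hB]; linarith
  refine ⟨B * R ^ B + 2 * Real.log R, ?_, ?_⟩
  · have h1 : 1 ≤ R ^ B := Real.one_le_rpow hR1 (by linarith)
    have h2 : 0 ≤ Real.log R := Real.log_nonneg hR1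
    have h3 : 1 ≤ B * R ^ B := one_le_mul_of_one_le_of_one_le hB1 h1
    linarith
  · intro q χ hq hc hχ
    obtain ⟨g1, g2⟩ := hg q χ hq hc hχ
    have hq1 : (1 : ℝ) ≤ q := by exact_mod_cast hq
    have hmq : (1 : ℝ) ≤ (m : ℝ) * q := one_le_mul_of_one_le_of_one_le hm1 hq1
    have h := goodD_mul hA hq1 hmq g1 g2
    have e1 : Real.sqrt ((q : ℝ) * ((m : ℝ) * (q : ℝ))) = R * q := by
      rw [show (q : ℝ) * ((m : ℝ) * (q : ℝ)) = m * (q : ℝ) ^ 2 by ring,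
        Real.sqrt_mul (by linarith), Real.sqrt_sq (by linarith), hR]
    rw [e1, ← hB] at h
    have h2 := goodD_rescale hB1 hq1 hR1 h
    have e3 : (fun n : ℕ => χ (n : ZMod q) * (ArithmeticFunction.vonMangoldt n : ℂ) * ph u n +
        χ (n : ZMod q) * ψ (n : ZMod m) * (ArithmeticFunction.vonMangoldt n : ℂ) * ph v n) =
        (fun n : ℕ => χ (n : ZMod q) * cs ψ u v n * (ArithmeticFunction.vonMangoldt n : ℂ)) := by
      funext n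
      unfold cs
      ring
    rw [e3] at h2
    exact h2

theorem ts_core {m : ℕ} (hm0 : m ≠ 0) (ψ : DirichletCharacter ℂ m) (hψ : ψ.IsPrimitive)
    {x y : ℝ} (hx : 0 ≤ x) (hy : 0 ≤ y) (hxy : ψ ≠ 1 ∨ x ≠ y) (τ ε : ℝ) (hτ : 0 ≤ τ) (hε : 0 < ε) :
    ∃ K η X0 : ℝ, 1 ≤ K ∧ 0 < η ∧ 1 ≤ X0 ∧
    ∀ (X Y : ℕ) (T : ℝ), X0 ≤ X → K * X ≤ Y → (Y : ℝ) ≤ (X : ℝ) ^ (1 + η) →
      4 * (Real.log X) ^ 2 ≤ T → T ≤ (X : ℝ) ^ τ →
      (∀ q : ℕ, X < q → q ≤ Y → Nat.Coprime q m → ∀ χ : DirichletCharacter ℂ q, χ.IsPrimitive →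
        (1 : ℝ) ≤ (NN (Fs ψ x y q χ) T (2 * T) : ℝ)) ∧
      primFamM m X Y (fun q χ => 2 * (NN (Fs ψ x y q χ) T (2 * T) : ℝ) -
          (Ns (Fs ψ x y q χ) T (2 * T) : ℝ)) ≤
        (c2 (hh τ) + ε) * primFamM m X Y (fun q χ => (NN (Fs ψ x y q χ) T (2 * T) : ℝ)) ∧
      primFamM m X Y (fun q χ => 3 * (NN (Fs ψ x y q χ) T (2 * T) : ℝ) -
          2 * (Nd (Fs ψ x y q χ) T (2 * T) : ℝ)) ≤
        (c2 (hh τ) + ε) * primFamM m X Y (fun q χ => (NN (Fs ψ x y q χ) T (2 * T) : ℝ)) := by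
  haveI : NeZero m := ⟨hm0⟩
  obtain ⟨A, hA, hgood⟩ := Fs_good hm0 ψ hψ hx hy
  obtain ⟨g0, g1, g2⟩ := c2_main.1 (hh τ) (hh_pos hτ) (hh_le hτ)
  obtain ⟨Ci, hCi, hinner⟩ := inner_le 1 le_rfl
  obtain ⟨c', hc'⟩ : ∃ c' : ℕ → ℂ, c' = fun n => cs ψ x y n / ((Real.sqrt 2 : ℝ) : ℂ) := ⟨_, rfl⟩
  have hn : ∀ n, ‖c' n‖ ^ 2 = ‖cs ψ x y n‖ ^ 2 / 2 := by
    intro n
    rw [hc']
    simp only
    rw [norm_div, div_pow, Complex.norm_real, Real.norm_eq_abs, sq_abs,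
      Real.sq_sqrt (by norm_num)]
  have hS : SelE c' := selE_shift ψ (y - x) (hxy.imp id fun h => sub_ne_zero.2 h.symm) c'
    fun n h1 => by rw [hn, cs_norm ψ x y h1]
  have hsc : ∀ u, SWu (cs ψ x y) 1 u = 2 * SWu c' 1 u :=
    swu_scale _ _ (fun n => by rw [hn]; ring)
  obtain ⟨-, -, -, t4, -, -⟩ := Pool.Agent.W261.TW.t_smooth c' hS
  have hms0 := Pool.Agent.N880.HE.msE_main (Pool.Agent.N880.HE.primM_main Pool.Agent.N880.HE.blockM_main Pool.Agent.N880.HD.cop_main)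
    Pool.Agent.N880.HD.gauss_main Pool.Agent.N880.HD.winC_main Pool.Agent.N880.QF.Rest.rest_main
  have hfam : ∀ X Y : ℕ, 1 ≤ X → ∀ i ∈ primSetM (rad m) X Y, 0 ≤ 1 / (i.1 : ℝ) ^ 2 ∧
      (X : ℝ) ≤ (i.1 : ℝ) ∧ (i.1 : ℝ) ≤ Y ∧ H385.GoodD 2 A (i.1 : ℝ) (Fs ψ x y i.1 i.2)
        (fun n => i.2 (n : ZMod i.1) * cs ψ x y n * (ArithmeticFunction.vonMangoldt n : ℂ)) := by
    intro X Y hX i hi
    obtain ⟨h1, h2, h4, h3⟩ := (mem_primSetM (rad m) X Y i).mp hi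
    exact ⟨by positivity, by exact_mod_cast h1.le, by exact_mod_cast h2,
      hgood i.1 i.2 (by omega) ((coprime_rad hm0 i.1).mp h4) h3⟩
  have hcont : Continuous (fun u => SWu (cs ψ x y) 1 u) := by
    simp_rw [hsc]
    exact (t4 1 one_pos).const_mul 2
  have hYint : ∀ s : ℝ, 0 < s → ∃ L0 : ℝ, 0 < L0 ∧ ∀ (Λ A B T : ℝ), L0 ≤ Λ → 0 ≤ A → 0 ≤ B →
      0 ≤ T → ∫ u in (0 : ℝ)..Λ, Rw (hh τ) (u / Λ) * (A * SWu (cs ψ x y) 1 u + B * T) ≤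
      A * (Real.sqrt Real.pi * Λ ^ 2 * (2 * (∫ α in (0 : ℝ)..1, α * Rw (hh τ) α) + s)) +
        B * (Rw (hh τ) 0 * Λ * T) := by
    intro s hs
    obtain ⟨L0, hL0, h⟩ := Pool.Agent.N880.HE.Y_intE c' hS (hh τ) g0 g1 (s := s / 2) (by positivity)
    refine ⟨L0, hL0, fun Λ A B T hΛ hA hB hT => ?_⟩
    have h1 := h Λ (2 * A) B T hΛ (by positivity) hB hT
    have e1 : ∀ u, Rw (hh τ) (u / Λ) * (A * SWu (cs ψ x y) 1 u + B * T) =
      Rw (hh τ) (u / Λ) * (2 * A * SWu c' 1 u + B * T) := fun u => by rw [hsc]; ring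
    simp_rw [e1]
    refine h1.trans (le_of_eq ?_)
    ring
  have hmsq : ∀ s : ℝ, 0 < s → s ≤ 1 / 2 → ∃ K C X0 : ℝ, 1 ≤ K ∧ 0 < C ∧ 3 ≤ X0 ∧
      ∀ (X Y : ℕ) (T u : ℝ), X0 ≤ X → K * X ≤ Y → (Y : ℝ) ≤ (X : ℝ) ^ 2 →
      1 ≤ T → (Real.log (X * T)) ^ 2 ≤ T → T ≤ (X : ℝ) ^ τ → 0 ≤ u →
      u ≤ (1 - s) * ((2 + τ) / (1 + τ)) * Real.log (X * T) →
      ∫ t : ℝ, ∑ i ∈ primSetM (rad m) X Y, (1 / (i.1 : ℝ) ^ 2) *
        ‖∑' n : ℕ, (i.2 (n : ZMod i.1) * cs ψ x y n * (ArithmeticFunction.vonMangoldt n : ℂ)) *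
          ((Real.sqrt n : ℂ)⁻¹ * bt T u t (Real.log n))‖ ^ 2 ≤
      (1 + s) * (∑ i ∈ primSetM (rad m) X Y, 1 / (i.1 : ℝ) ^ 2) * (T / (2 * Real.pi)) *
          SWu (cs ψ x y) 1 u +
        C * (∑ i ∈ primSetM (rad m) X Y, 1 / (i.1 : ℝ) ^ 2) * T := by
    intro s hs hs1
    obtain ⟨K, C, X0, hK, hC, hX0, h⟩ := hms0 (rad m) (rad_squarefree m) (cs ψ x y) 2 one_le_two
      (fun n _ => cs_le ψ x y n) τ s hτ hs hs1
    refine ⟨K, C, X0, hK, hC, hX0, ?_⟩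
    intro X Y T u hX hKX _ hT1 hTL hTX hu0 hu
    have h1 := h X Y T u hX hKX hT1 hTL hTX hu0 hu
    have hWs : WM (rad m) X Y = ∑ i ∈ primSetM (rad m) X Y, (1 / (i.1 : ℝ) ^ 2) := by
      unfold WM; rw [primFamM_eq]; simp
    rw [hWs] at h1
    simp only [primFamM_eq] at h1
    exact h1
  obtain ⟨K, η, X0, hK, hη, hX0, H⟩ := coreAbs 2 A (by norm_num) hA
    (fun X Y => primSetM (rad m) X Y) (fun i => 1 / (i.1 : ℝ) ^ 2) (fun i => (i.1 : ℝ))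
    (fun i => Fs ψ x y i.1 i.2)
    (fun i n => i.2 (n : ZMod i.1) * cs ψ x y n * (ArithmeticFunction.vonMangoldt n : ℂ))
    hfam (fun u => SWu (cs ψ x y) 1 u) hcont
    (fun u => Pool.Agent.N880.HE.swu1_nonneg _ _) (2 ^ 2 * Ci) (by positivity)
    (fun u hu => by
      have h1 := Pool.Agent.N880.HE.swu1_le (cs ψ x y) one_le_two (fun n _ => cs_le ψ x y n) u
      have h2 := hinner u hu
      nlinarith)
    2 τ (hh τ) (c2 (hh τ) + ε) (by norm_num) hτ g0 g1 hYint hmsq (by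
      have e1 : (2 : ℝ) * Rw (hh τ) 0 / ((2 + τ) / (1 + τ)) + 2 * ((2 + τ) / (1 + τ)) *
          (2 * ∫ α in (0 : ℝ)..1, α * Rw (hh τ) α) / 2 = c2 (hh τ) := by
        rw [← g2]
        unfold hh
        ring
      rw [e1]
      linarith)
  refine ⟨K, η, X0, hK, hη, hX0, ?_⟩
  intro X Y T a1 a2 a3 a4 a5
  obtain ⟨b0, b1, b2⟩ := H X Y T a1 a2 a3 a4 a5
  refine ⟨fun q h1 h2 h4 χ h3 => ?_, ?_, ?_⟩
  · exact b0 ⟨q, χ⟩ ((mem_primSetM (rad m) X Y ⟨q, χ⟩).mpr ⟨h1, h2, (coprime_rad hm0 q).mpr h4, h3⟩)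
  · rw [← primFamM_rad hm0, ← primFamM_rad hm0, primFamM_eq, primFamM_eq]
    exact b1
  · rw [← primFamM_rad hm0, ← primFamM_rad hm0, primFamM_eq, primFamM_eq]
    exact b2

/-- **Common zeros of `L(s + i x, χ)` and `L(s + i y, χ ψ)`.** -/
theorem ts_fin {m : ℕ} (hm0 : m ≠ 0) (ψ : DirichletCharacter ℂ m) (hψ : ψ.IsPrimitive)
    {x y : ℝ} (hx : 0 ≤ x) (hy : 0 ≤ y) (hxy : ψ ≠ 1 ∨ x ≠ y) (τ ε : ℝ) (hτ : 0 ≤ τ) (hε : 0 < ε) :
    ∃ K η X0 : ℝ, 1 ≤ K ∧ 0 < η ∧ 1 ≤ X0 ∧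
    ∀ (X Y : ℕ) (T : ℝ), X0 ≤ X → K * X ≤ Y → (Y : ℝ) ≤ (X : ℝ) ^ (1 + η) →
      4 * (Real.log X) ^ 2 ≤ T → T ≤ (X : ℝ) ^ τ →
      0 < primFamM m X Y (fun q χ => ((NN (sh x (LL q χ)) T (2 * T) +
        NN (sh y (LL (q * m) (pm χ ψ))) T (2 * T) : ℕ) : ℝ)) ∧
      (∀ q : ℕ, X < q → Nat.Coprime q m → ∀ χ : DirichletCharacter ℂ q, χ.IsPrimitive →
        (zset (sh x (LL q χ)) T (2 * T)).Finite ∧ (zset (sh y (LL (q * m) (pm χ ψ))) T (2 * T)).Finite) ∧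
      (2 - c2 (hh τ) - ε) * primFamM m X Y (fun q χ => ((NN (sh x (LL q χ)) T (2 * T) +
        NN (sh y (LL (q * m) (pm χ ψ))) T (2 * T) : ℕ) : ℝ)) ≤
        primFamM m X Y (fun q χ => ((On (sh x (LL q χ)) (sh y (LL (q * m) (pm χ ψ))) T +
          On (sh y (LL (q * m) (pm χ ψ))) (sh x (LL q χ)) T : ℕ) : ℝ)) ∧
      (5 - 3 * c2 (hh τ) - ε) / 2 * primFamM m X Y (fun q χ => ((NN (sh x (LL q χ)) T (2 * T) +
        NN (sh y (LL (q * m) (pm χ ψ))) T (2 * T) : ℕ) : ℝ)) ≤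
        primFamM m X Y (fun q χ => ((Al (sh x (LL q χ)) (sh y (LL (q * m) (pm χ ψ))) T +
          Al (sh y (LL (q * m) (pm χ ψ))) (sh x (LL q χ)) T : ℕ) : ℝ)) ∧
      (3 - c2 (hh τ) - ε) / 2 * primFamM m X Y (fun q χ => ((NN (sh x (LL q χ)) T (2 * T) +
        NN (sh y (LL (q * m) (pm χ ψ))) T (2 * T) : ℕ) : ℝ)) ≤
        primFamM m X Y (fun q χ => ((zset (sh x (LL q χ)) T (2 * T) ∪
          zset (sh y (LL (q * m) (pm χ ψ))) T (2 * T)).ncard : ℝ)) ∧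
      primFamM m X Y (fun q χ => (Cm (sh x (LL q χ)) (sh y (LL (q * m) (pm χ ψ))) T : ℝ)) ≤
        (c2 (hh τ) - 1 + ε) / 2 * primFamM m X Y (fun q χ => ((NN (sh x (LL q χ)) T (2 * T) +
        NN (sh y (LL (q * m) (pm χ ψ))) T (2 * T) : ℕ) : ℝ)) := by
  obtain ⟨K, η, X0, hK, hη, hX0, h⟩ := ts_core hm0 ψ hψ hx hy hxy τ (ε / 3) hτ (by positivity)
  obtain ⟨A', hA', hg⟩ := good_bothS hm0 ψ hψ hx hy
  have hsq := rad_squarefree m
  obtain ⟨C4, hC4, hmass⟩ := prim_mass_M (rad m) hsq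
  have hc0 := cM_pos (rad m) hsq
  refine ⟨max K (Real.exp ((C4 + 1) / cM (rad m))), η, max X0 (Real.exp 1),
    le_max_of_le_left hK, hη, le_max_of_le_left hX0, ?_⟩
  intro X Y T hX hKX hY hT1 hT2
  have hXX0 : X0 ≤ X := (le_max_left _ _).trans hX
  have hXe : Real.exp 1 ≤ X := (le_max_right _ _).trans hX
  have hX1r : (1 : ℝ) ≤ X := hX0.trans hXX0
  have hXpos : (0 : ℝ) < X := by linarith
  have hX1n : 1 ≤ X := by exact_mod_cast hX1r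
  have hlog1 : 1 ≤ Real.log X := by
    rw [Real.le_log_iff_exp_le hXpos]; exact hXe
  have hT0 : 1 ≤ T := by nlinarith
  have hKX1 : K * X ≤ Y := (mul_le_mul_of_nonneg_right (le_max_left _ _) hXpos.le).trans hKX
  have hKX2 : Real.exp ((C4 + 1) / cM (rad m)) * X ≤ Y :=
    (mul_le_mul_of_nonneg_right (le_max_right _ _) hXpos.le).trans hKX
  have hXYr : (X : ℝ) ≤ Y := by
    calc (X : ℝ) = 1 * X := (one_mul _).symm
      _ ≤ K * X := mul_le_mul_of_nonneg_right hK hXpos.le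
      _ ≤ Y := hKX1
  have hXY : X ≤ Y := by exact_mod_cast hXYr
  obtain ⟨b0, b1, b2⟩ := h X Y T hXX0 hKX1 hY hT1 hT2
  have hgl : ∀ q : ℕ, X < q → Nat.Coprime q m → ∀ χ : DirichletCharacter ℂ q, χ.IsPrimitive →
      GoodL (sh x (LL q χ)) ∧ GoodL (sh y (LL (q * m) (pm χ ψ))) := by
    intro q hq hc χ hχ
    obtain ⟨g1, g2⟩ := hg q χ (by omega) hc hχ
    have hq1 : (1 : ℝ) ≤ q := by exact_mod_cast (show 1 ≤ q by omega)
    have hm1 : (1 : ℝ) ≤ m := by exact_mod_cast Nat.one_le_iff_ne_zero.2 hm0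
    exact ⟨H385.PerChi.goodL hA' hq1 g1,
      H385.PerChi.goodL hA' (one_le_mul_of_one_le_of_one_le hm1 hq1) g2⟩
  have hcnt : ∀ q : ℕ, X < q → q ≤ Y → Nat.Coprime q m → ∀ χ : DirichletCharacter ℂ q,
      χ.IsPrimitive → _ := fun q hq _ hc χ hχ =>
    counts (hgl q hq hc χ hχ).1 (hgl q hq hc χ hχ).2 hT0
  have hNN : primFamM m X Y (fun q χ => (NN (Fs ψ x y q χ) T (2 * T) : ℝ)) =
      primFamM m X Y (fun q χ => ((NN (sh x (LL q χ)) T (2 * T) +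
        NN (sh y (LL (q * m) (pm χ ψ))) T (2 * T) : ℕ) : ℝ)) := by
    refine fam_congr m X Y _ _ fun q hq hq2 hc χ hχ => ?_
    have := (hcnt q hq hq2 hc χ hχ).1
    show ((NN (fun s => sh x (LL q χ) s * sh y (LL (q * m) (pm χ ψ)) s) T (2 * T) : ℕ) : ℝ) = _
    rw [this]
  have hNs : primFamM m X Y (fun q χ => (Ns (Fs ψ x y q χ) T (2 * T) : ℝ)) ≤
      primFamM m X Y (fun q χ => ((On (sh x (LL q χ)) (sh y (LL (q * m) (pm χ ψ))) T +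
          On (sh y (LL (q * m) (pm χ ψ))) (sh x (LL q χ)) T : ℕ) : ℝ)) := by
    refine fam_mono m X Y _ _ fun q hq hq2 hc χ hχ => ?_
    have := (hcnt q hq hq2 hc χ hχ).2.2.1
    show ((Ns (fun s => sh x (LL q χ) s * sh y (LL (q * m) (pm χ ψ)) s) T (2 * T) : ℕ) : ℝ) ≤ _
    exact_mod_cast this
  have hNd : primFamM m X Y (fun q χ => (Nd (Fs ψ x y q χ) T (2 * T) : ℝ)) =
      primFamM m X Y (fun q χ => ((zset (sh x (LL q χ)) T (2 * T) ∪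
          zset (sh y (LL (q * m) (pm χ ψ))) T (2 * T)).ncard : ℝ)) := by
    refine fam_congr m X Y _ _ fun q hq hq2 hc χ hχ => ?_
    have := (hcnt q hq hq2 hc χ hχ).2.1
    show ((Nd (fun s => sh x (LL q χ) s * sh y (LL (q * m) (pm χ ψ)) s) T (2 * T) : ℕ) : ℝ) = _
    rw [this]
  have hCm : primFamM m X Y (fun q χ => (Cm (sh x (LL q χ)) (sh y (LL (q * m) (pm χ ψ))) T : ℝ)) +
      primFamM m X Y (fun q χ => (Nd (Fs ψ x y q χ) T (2 * T) : ℝ)) ≤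
      primFamM m X Y (fun q χ => ((NN (sh x (LL q χ)) T (2 * T) +
        NN (sh y (LL (q * m) (pm χ ψ))) T (2 * T) : ℕ) : ℝ)) := by
    rw [← fam_add]
    refine fam_mono m X Y _ _ fun q hq hq2 hc χ hχ => ?_
    have := (hcnt q hq hq2 hc χ hχ).2.2.2
    show (Cm (sh x (LL q χ)) (sh y (LL (q * m) (pm χ ψ))) T : ℝ) +
      ((Nd (fun s => sh x (LL q χ) s * sh y (LL (q * m) (pm χ ψ)) s) T (2 * T) : ℕ) : ℝ) ≤ _
    exact_mod_cast this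
  have hlin : ∀ (a b : ℝ) (f g : (q : ℕ) → DirichletCharacter ℂ q → ℝ),
      primFamM m X Y (fun q χ => a * f q χ - b * g q χ) =
        a * primFamM m X Y f - b * primFamM m X Y g := fun a b f g =>
    H385.primFamM_lin m X Y a b f g
  have hmul : ∀ (a : ℝ) (f : (q : ℕ) → DirichletCharacter ℂ q → ℝ),
      primFamM m X Y (fun q χ => a * f q χ) = a * primFamM m X Y f := by
    intro a f
    have h1 := hlin a 0 f f
    simp only [zero_mul, sub_zero] at h1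
    exact h1
  have hAl : 3 * primFamM m X Y (fun q χ => (Ns (Fs ψ x y q χ) T (2 * T) : ℝ)) ≤
      primFamM m X Y (fun q χ => (NN (Fs ψ x y q χ) T (2 * T) : ℝ)) +
      2 * primFamM m X Y (fun q χ => ((Al (sh x (LL q χ)) (sh y (LL (q * m) (pm χ ψ))) T +
          Al (sh y (LL (q * m) (pm χ ψ))) (sh x (LL q χ)) T : ℕ) : ℝ)) := by
    rw [← hmul, ← hmul, ← fam_add]
    refine fam_mono m X Y _ _ fun q hq hq2 hc χ hχ => ?_
    have := once (hgl q hq hc χ hχ).1 (hgl q hq hc χ hχ).2 hT0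
    show 3 * ((Ns (fun s => sh x (LL q χ) s * sh y (LL (q * m) (pm χ ψ)) s) T (2 * T) : ℕ) : ℝ) ≤
      ((NN (fun s => sh x (LL q χ) s * sh y (LL (q * m) (pm χ ψ)) s) T (2 * T) : ℕ) : ℝ) + _
    exact_mod_cast this
  have hW1 : 1 ≤ primFamM m X Y (fun _ _ => 1) := by
    rw [← primFamM_rad hm0]
    have h1 := (abs_le.mp (hmass X Y hX1n hXY)).1
    have h2 : (C4 + 1) / cM (rad m) ≤ Real.log ((Y : ℝ) / X) := by
      have hYpos : (0 : ℝ) < Y := lt_of_lt_of_le hXpos hXYr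
      rw [Real.le_log_iff_exp_le (div_pos hYpos hXpos), le_div_iff₀ hXpos]
      exact hKX2
    rw [div_le_iff₀ hc0] at h2
    linarith
  have hNpos : 0 < primFamM m X Y (fun q χ => (NN (Fs ψ x y q χ) T (2 * T) : ℝ)) := by
    refine lt_of_lt_of_le (lt_of_lt_of_le one_pos hW1) ?_
    exact fam_mono m X Y _ _ fun q hq hq2 hc χ hχ => b0 q hq hq2 hc χ hχ
  have f1 := hlin 2 1 (fun q χ => (NN (Fs ψ x y q χ) T (2 * T) : ℝ))
    (fun q χ => (Ns (Fs ψ x y q χ) T (2 * T) : ℝ))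
  have f2 := hlin 3 2 (fun q χ => (NN (Fs ψ x y q χ) T (2 * T) : ℝ))
    (fun q χ => (Nd (Fs ψ x y q χ) T (2 * T) : ℝ))
  simp only [one_mul] at f1
  rw [f1] at b1
  rw [f2] at b2
  rw [hNN] at b1 b2 hNpos hAl
  rw [hNd] at b2 hCm
  have hεN := mul_pos hε hNpos
  refine ⟨hNpos, fun q hq hc χ hχ => ⟨H370.zset_finite (hgl q hq hc χ hχ).1 T _ hT0,
    H370.zset_finite (hgl q hq hc χ hχ).2 T _ hT0⟩, ?_, lin1 b1 hAl, ?_, ?_⟩
  · linarith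
  · linarith
  · linarith

end Pool.Agent.T4h70.LI
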